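import Pool.Agent.CWR.Defs

/-!
# Subexpressions and restriction
-/

namespace Pool.Agent.CWR

namespace CExpr

variable {V : Type*} {k : ℕ}

/-- Subexpressions. -/
inductive Sub : CExpr V k → CExpr V k → Prop
  | refl (e) : Sub e e
  | ul {e a b} : Sub e a → Sub e (union a b)
  | ur {e a b} : Sub e b → Sub e (union a b)
  | jn {e a i j} : Sub e a → Sub e (join i j a)
  | rl {e a i j} : Sub e a → Sub e (relab i j a)

theorem Sub.trans {e₁ e₂ e₃ : CExpr V k} (h : Sub e₁ e₂) (h' : Sub e₂ e₃) : Sub e₁ e₃ := by
  induction h' with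
  | refl => exact h
  | ul _ ih => exact .ul ih
  | ur _ ih => exact .ur ih
  | jn _ ih => exact .jn ih
  | rl _ ih => exact .rl ih

theorem Sub.verts_subset {e' e : CExpr V k} (h : Sub e' e) : e'.verts ⊆ e.verts := by
  induction h with
  | refl => exact subset_rfl
  | ul _ ih => exact ih.trans Set.subset_union_left
  | ur _ ih => exact ih.trans Set.subset_union_right
  | jn _ ih => exact ih
  | rl _ ih => exact ih

theorem Sub.ok {e' e : CExpr V k} (h : Sub e' e) (he : e.ok) : e'.ok := by
  induction h with
  | refl => exact he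
  | ul _ ih => exact ih he.1
  | ur _ ih => exact ih he.2.1
  | jn _ ih => exact ih he.2
  | rl _ ih => exact ih he

theorem verts_nonempty (e : CExpr V k) : e.verts.Nonempty := by
  induction e with
  | vert v i => exact ⟨v, rfl⟩
  | union a b iha _ => exact iha.mono Set.subset_union_left
  | join i j a ih => exact ih
  | relab i j a ih => exact ih

theorem edge_mem {e : CExpr V k} {x y : V} (h : e.edge x y) : x ∈ e.verts ∧ y ∈ e.verts := by
  induction e with
  | vert v i => exact h.elim
  | union a b iha ihb =>
    rcases h with h | h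
    · exact ⟨Or.inl (iha h).1, Or.inl (iha h).2⟩
    · exact ⟨Or.inr (ihb h).1, Or.inr (ihb h).2⟩
  | join i j a ih =>
    rcases h with h | h
    · exact ih h
    · exact ⟨h.1, h.2.1⟩
  | relab i j a ih => exact ih h

theorem lab_union_left {a b : CExpr V k} {x : V} (hx : x ∈ a.verts) :
    (union a b).lab x = a.lab x := by
  simp [lab, hx]

theorem lab_union_right {a b : CExpr V k} (hd : Disjoint a.verts b.verts) {x : V}
    (hx : x ∈ b.verts) : (union a b).lab x = b.lab x := by
  have : x ∉ a.verts := fun h => Set.disjoint_left.1 hd h hx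
  simp [lab, this]

theorem lab_union_not {a b : CExpr V k} {x : V}
    (hx : x ∉ a.verts) : (union a b).lab x = b.lab x := by
  simp [lab, hx]

/-- Vertices with the same label in a subexpression keep the same label and are
indistinguishable from the outside. -/
theorem Sub.same {e' e : CExpr V k} (h : Sub e' e) (he : e.ok) {x y : V} (hx : x ∈ e'.verts)
    (hy : y ∈ e'.verts) (hl : e'.lab x = e'.lab y) :
    e.lab x = e.lab y ∧ ∀ w, w ∉ e'.verts → (e.edge x w ↔ e.edge y w) := by
  induction h with
  | refl =>
    exact ⟨hl, fun w hw => ⟨fun h => absurd (edge_mem h).2 hw, fun h => absurd (edge_mem h).2 hw⟩⟩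
  | @ul a b hs ih =>
    obtain ⟨ha, hb, hd⟩ := he
    obtain ⟨h1, h2⟩ := ih ha
    have hxa := hs.verts_subset hx
    have hya := hs.verts_subset hy
    refine ⟨by rw [lab_union_left hxa, lab_union_left hya, h1], fun w hw => ?_⟩
    have hxb : ∀ w, ¬ b.edge x w := fun w h => Set.disjoint_left.1 hd hxa (edge_mem h).1
    have hyb : ∀ w, ¬ b.edge y w := fun w h => Set.disjoint_left.1 hd hya (edge_mem h).1
    simp only [edge, hxb, hyb, or_false]
    exact h2 w hw
  | @ur a b hs ih =>
    obtain ⟨ha, hb, hd⟩ := he
    obtain ⟨h1, h2⟩ := ih hb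
    have hxb := hs.verts_subset hx
    have hyb := hs.verts_subset hy
    refine ⟨by rw [lab_union_right hd hxb, lab_union_right hd hyb, h1], fun w hw => ?_⟩
    have hxa : ∀ w, ¬ a.edge x w := fun w h => Set.disjoint_left.1 hd (edge_mem h).1 hxb
    have hya : ∀ w, ¬ a.edge y w := fun w h => Set.disjoint_left.1 hd (edge_mem h).1 hyb
    simp only [edge, hxa, hya, false_or]
    exact h2 w hw
  | @jn a i j hs ih =>
    obtain ⟨h1, h2⟩ := ih he.2
    have hxa := hs.verts_subset hx
    have hya := hs.verts_subset hy
    refine ⟨h1, fun w hw => ?_⟩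
    simp only [edge, hxa, hya, true_and, h1, h2 w hw]
  | @rl a i j hs ih =>
    obtain ⟨h1, h2⟩ := ih he
    refine ⟨?_, h2⟩
    simp only [lab, h1]

/-- Two subexpressions are comparable or have no common vertex. -/
theorem Sub.tri {a b e : CExpr V k} (ha : Sub a e) (hb : Sub b e) (he : e.ok) :
    Sub a b ∨ Sub b a ∨ Disjoint a.verts b.verts := by
  induction ha with
  | refl => exact Or.inr (Or.inl hb)
  | @ul c d hs ih =>
    cases hb with
    | refl => exact Or.inl (.ul hs)
    | ul hb => exact ih hb he.1
    | ur hb => exact Or.inr (Or.inr (he.2.2.mono hs.verts_subset hb.verts_subset))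
  | @ur c d hs ih =>
    cases hb with
    | refl => exact Or.inl (.ur hs)
    | ul hb => exact Or.inr (Or.inr (he.2.2.symm.mono hs.verts_subset hb.verts_subset))
    | ur hb => exact ih hb he.2.1
  | @jn c i j hs ih =>
    cases hb with
    | refl => exact Or.inl (.jn hs)
    | jn hb => exact ih hb he.2
  | @rl c i j hs ih =>
    cases hb with
    | refl => exact Or.inl (.rl hs)
    | rl hb => exact ih hb he

/-- Above a subexpression with fewer vertices there is a proper union. -/
theorem Sub.next {a e : CExpr V k} (ha : Sub a e) (hne : a.verts ≠ e.verts) :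
    ∃ c d, Sub (union c d) e ∧ ((Sub a c ∧ c.verts = a.verts) ∨ (Sub a d ∧ d.verts = a.verts)) := by
  induction ha with
  | refl => exact absurd rfl hne
  | @ul c d hs ih =>
    by_cases h : a.verts = c.verts
    · exact ⟨c, d, .refl _, Or.inl ⟨hs, h.symm⟩⟩
    · obtain ⟨p, q, h1, h2⟩ := ih h
      exact ⟨p, q, .ul h1, h2⟩
  | @ur c d hs ih =>
    by_cases h : a.verts = d.verts
    · exact ⟨c, d, .refl _, Or.inr ⟨hs, h.symm⟩⟩
    · obtain ⟨p, q, h1, h2⟩ := ih h
      exact ⟨p, q, .ur h1, h2⟩
  | @jn c i j hs ih =>
    obtain ⟨p, q, h1, h2⟩ := ih hne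
    exact ⟨p, q, .jn h1, h2⟩
  | @rl c i j hs ih =>
    obtain ⟨p, q, h1, h2⟩ := ih hne
    exact ⟨p, q, .rl h1, h2⟩

/-- The labels used by the vertices f w. -/
def used {W : Type*} (f : W → V) (e : CExpr V k) : Set (Fin k) :=
  {t | ∃ w, f w ∈ e.verts ∧ e.lab (f w) = t}

theorem used_union {W : Type*} (f : W → V) {a b : CExpr V k} (hd : Disjoint a.verts b.verts) :
    used f (union a b) = used f a ∪ used f b := by
  ext t
  constructor
  · rintro ⟨w, hw | hw, rfl⟩
    · exact Or.inl ⟨w, hw, (lab_union_left hw).symm⟩
    · exact Or.inr ⟨w, hw, (lab_union_right hd hw).symm⟩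
  · rintro (⟨w, hw, rfl⟩ | ⟨w, hw, rfl⟩)
    · exact ⟨w, Or.inl hw, lab_union_left hw⟩
    · exact ⟨w, Or.inr hw, lab_union_right hd hw⟩

theorem used_join {W : Type*} (f : W → V) {a : CExpr V k} (i j : Fin k) :
    used f (join i j a) = used f a := rfl

/-- Restriction of an expression to the vertices f w, with fewer labels. -/
theorem restrict {W : Type*} {m : ℕ} (f : W → V) (hf : Function.Injective f)
    (e : CExpr V m) (he : e.ok) (hk : ∀ e', Sub e' e → (used f e').ncard ≤ k)
    (h : Fin m → Fin k) (hi : Set.InjOn h (used f e)) :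
    (∀ w, f w ∉ e.verts) ∨ ∃ g : CExpr W k, g.ok ∧ g.verts = f ⁻¹' e.verts ∧
      (∀ x, f x ∈ e.verts → g.lab x = h (e.lab (f x))) ∧
      ∀ x y, g.edge x y ↔ e.edge (f x) (f y) := by
  classical
  induction e generalizing h with
  | vert v i =>
    by_cases hv : ∃ w, f w = v
    · obtain ⟨w, rfl⟩ := hv
      refine Or.inr ⟨vert w (h i), trivial, ?_, ?_, ?_⟩
      · ext x
        simp only [verts, Set.mem_singleton_iff, Set.mem_preimage]
        exact hf.eq_iff.symm
      · intro x _
        rfl
      · intro x y
        exact Iff.rfl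
    · exact Or.inl fun w hw => hv ⟨w, hw⟩
  | union a b iha ihb =>
    obtain ⟨ha, hb, hd⟩ := he
    rw [used_union f hd] at hi
    have h1 := iha ha (fun e' h' => hk e' (.ul h')) h (hi.mono Set.subset_union_left)
    have h2 := ihb hb (fun e' h' => hk e' (.ur h')) h (hi.mono Set.subset_union_right)
    rcases h1 with h1 | ⟨g1, o1, v1, l1, e1⟩ <;> rcases h2 with h2 | ⟨g2, o2, v2, l2, e2⟩
    · exact Or.inl fun w hw => hw.elim (h1 w) (h2 w)
    · refine Or.inr ⟨g2, o2, ?_, ?_, ?_⟩
      · rw [v2]
        ext x
        simp only [Set.mem_preimage, verts, Set.mem_union, h1 x, false_or]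
      · intro x hx
        have hx : f x ∈ b.verts := hx.resolve_left (h1 x)
        rw [l2 x hx, lab_union_right hd hx]
      · intro x y
        have : ¬ a.edge (f x) (f y) := fun h => h1 x (edge_mem h).1
        simp only [edge, this, false_or]
        exact e2 x y
    · refine Or.inr ⟨g1, o1, ?_, ?_, ?_⟩
      · rw [v1]
        ext x
        simp only [Set.mem_preimage, verts, Set.mem_union, h2 x, or_false]
      · intro x hx
        have hx : f x ∈ a.verts := hx.resolve_right (h2 x)
        rw [l1 x hx, lab_union_left hx]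
      · intro x y
        have : ¬ b.edge (f x) (f y) := fun h => h2 x (edge_mem h).1
        simp only [edge, this, or_false]
        exact e1 x y
    · have hd' : Disjoint g1.verts g2.verts := by
        rw [v1, v2]
        exact hd.preimage f
      refine Or.inr ⟨union g1 g2, ⟨o1, o2, hd'⟩, ?_, ?_, ?_⟩
      · simp only [verts, v1, v2, Set.preimage_union]
      · rintro x (hx | hx)
        · have hx' : x ∈ g1.verts := by
            rw [v1]
            exact hx
          rw [lab_union_left hx', lab_union_left hx, l1 x hx]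
        · have hx' : x ∈ g2.verts := by
            rw [v2]
            exact hx
          rw [lab_union_right hd' hx', lab_union_right hd hx, l2 x hx]
      · intro x y
        simp only [edge, e1, e2]
  | join i j a ih =>
    obtain ⟨hij, ha⟩ := he
    rcases ih ha (fun e' h' => hk e' (.jn h')) h hi with h1 | ⟨g, og, vg, lg, eg⟩
    · exact Or.inl h1
    · by_cases hu : i ∈ used f a ∧ j ∈ used f a
      · refine Or.inr ⟨join (h i) (h j) g, ⟨fun hh => hij (hi hu.1 hu.2 hh), og⟩, vg, lg, ?_⟩
        intro x y
        have hm : ∀ x, x ∈ g.verts ↔ f x ∈ a.verts := fun x => by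
          rw [vg]
          exact Iff.rfl
        have hl : ∀ x, f x ∈ a.verts → ∀ t ∈ used f a, (g.lab x = h t ↔ a.lab (f x) = t) := by
          intro x hx t ht
          rw [lg x hx]
          exact ⟨fun h' => hi ⟨x, hx, rfl⟩ ht h', fun h' => by rw [h']⟩
        simp only [edge, eg, hm]
        constructor
        · rintro (h' | ⟨h1, h2, h3⟩)
          · exact Or.inl h'
          · refine Or.inr ⟨h1, h2, ?_⟩
            rwa [hl x h1 i hu.1, hl y h2 j hu.2, hl x h1 j hu.2, hl y h2 i hu.1] at h3
        · rintro (h' | ⟨h1, h2, h3⟩)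
          · exact Or.inl h'
          · refine Or.inr ⟨h1, h2, ?_⟩
            rwa [hl x h1 i hu.1, hl y h2 j hu.2, hl x h1 j hu.2, hl y h2 i hu.1]
      · refine Or.inr ⟨g, og, vg, lg, ?_⟩
        intro x y
        rw [eg]
        simp only [edge]
        constructor
        · exact Or.inl
        · rintro (h' | ⟨h1, h2, ⟨h3, h4⟩ | ⟨h3, h4⟩⟩)
          · exact h'
          · exact absurd ⟨⟨x, h1, h3⟩, ⟨y, h2, h4⟩⟩ hu
          · exact absurd ⟨⟨y, h2, h4⟩, ⟨x, h1, h3⟩⟩ hu
  | relab i j a ih =>
    have hl : ∀ x, (relab i j a).lab x = if a.lab x = i then j else a.lab x := fun x => rfl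
    have hk' : ∀ e', Sub e' a → (used f e').ncard ≤ k := fun e' h' => hk e' (.rl h')
    -- labels other than i are still used
    have hu1 : ∀ t ∈ used f a, t ≠ i → t ∈ used f (relab i j a) := by
      rintro t ⟨w, hw, rfl⟩ hne
      exact ⟨w, hw, by rw [hl, if_neg hne]⟩
    have hu2 : i ∈ used f a → j ∈ used f (relab i j a) := by
      rintro ⟨w, hw, hh⟩
      exact ⟨w, hw, by rw [hl, if_pos hh]⟩
    by_cases hc : i ∈ used f a ∧ j ∈ used f a ∧ i ≠ j
    · obtain ⟨hi1, hj1, hij⟩ := hc
      -- a fresh label
      obtain ⟨s, hs⟩ : ∃ s : Fin k, s ∉ h '' (used f a \ {i}) := by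
        by_contra hcon
        push Not at hcon
        have h1 : (h '' (used f a \ {i})) = Set.univ := Set.eq_univ_of_forall hcon
        have h2 : (h '' (used f a \ {i})).ncard ≤ (used f a \ {i}).ncard :=
          Set.ncard_image_le (Set.toFinite _)
        have h3 : (used f a \ {i}).ncard + 1 = (used f a).ncard :=
          Set.ncard_sdiff_singleton_add_one hi1 (Set.toFinite _)
        have h4 := hk' a (.refl _)
        rw [h1, Set.ncard_univ, Nat.card_eq_fintype_card, Fintype.card_fin] at h2
        omega
      have hi' : Set.InjOn (Function.update h i s) (used f a) := by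
        intro x hx y hy hxy
        by_cases hxi : x = i <;> by_cases hyi : y = i
        · rw [hxi, hyi]
        · subst hxi
          rw [Function.update_self, Function.update_of_ne hyi] at hxy
          exact absurd ⟨y, ⟨hy, hyi⟩, hxy.symm⟩ hs
        · subst hyi
          rw [Function.update_self, Function.update_of_ne hxi] at hxy
          exact absurd ⟨x, ⟨hx, hxi⟩, hxy⟩ hs
        · rw [Function.update_of_ne hxi, Function.update_of_ne hyi] at hxy
          exact hi (hu1 x hx hxi) (hu1 y hy hyi) hxy
      rcases ih he hk' _ hi' with h1 | ⟨g, og, vg, lg, eg⟩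
      · exact Or.inl h1
      · refine Or.inr ⟨relab s (h j) g, og, vg, ?_, eg⟩
        intro x hx
        show (if g.lab x = s then h j else g.lab x) = h (if a.lab (f x) = i then j else a.lab (f x))
        rw [lg x hx]
        by_cases hxi : a.lab (f x) = i
        · rw [hxi, Function.update_self, if_pos rfl, if_pos rfl]
        · rw [Function.update_of_ne hxi, if_neg hxi, if_neg]
          intro hh
          exact hs ⟨_, ⟨⟨x, hx, rfl⟩, hxi⟩, hh⟩
    · -- no merge
      have hi' : Set.InjOn (Function.update h i (h j)) (used f a) := by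
        intro x hx y hy hxy
        by_cases hij : i = j
        · subst hij
          rw [Function.update_eq_self] at hxy
          by_cases hxi : x = i <;> by_cases hyi : y = i
          · rw [hxi, hyi]
          · subst hxi
            exact hi (hu2 hx) (hu1 y hy hyi) hxy
          · subst hyi
            exact hi (hu1 x hx hxi) (hu2 hy) hxy
          · exact hi (hu1 x hx hxi) (hu1 y hy hyi) hxy
        · by_cases hxi : x = i <;> by_cases hyi : y = i
          · rw [hxi, hyi]
          · subst hxi
            rw [Function.update_self, Function.update_of_ne hyi] at hxy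
            have := hi (hu2 hx) (hu1 y hy hyi) hxy
            subst this
            exact absurd ⟨hx, hy, hij⟩ hc
          · subst hyi
            rw [Function.update_self, Function.update_of_ne hxi] at hxy
            have := hi (hu1 x hx hxi) (hu2 hy) hxy
            subst this
            exact absurd ⟨hy, hx, hij⟩ hc
          · rw [Function.update_of_ne hxi, Function.update_of_ne hyi] at hxy
            exact hi (hu1 x hx hxi) (hu1 y hy hyi) hxy
      rcases ih he hk' _ hi' with h1 | ⟨g, og, vg, lg, eg⟩
      · exact Or.inl h1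
      · refine Or.inr ⟨g, og, vg, ?_, eg⟩
        intro x hx
        rw [lg x hx, hl]
        by_cases hxi : a.lab (f x) = i
        · rw [hxi, Function.update_self, if_pos rfl]
        · rw [Function.update_of_ne hxi, if_neg hxi]

end CExpr

open CExpr

/-- Clique-width is monotone under induced subgraphs. -/
theorem CWle.comap {V W : Type*} [Nonempty W] {G : SimpleGraph V} {H : SimpleGraph W} {k : ℕ}
    (hG : CWle G k) (f : W → V) (hf : Function.Injective f)
    (hH : ∀ x y, H.Adj x y ↔ G.Adj (f x) (f y)) : CWle H k := by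
  obtain ⟨e, he, hv, hedge⟩ := hG
  have := restrict (k := k) f hf e he (fun e' _ => by
    calc (used f e').ncard ≤ (Set.univ : Set (Fin k)).ncard :=
          Set.ncard_le_ncard (Set.subset_univ _) (Set.toFinite _)
      _ = k := by simp [Set.ncard_univ]) id (Set.injOn_id _)
  rcases this with h | ⟨g, og, vg, -, eg⟩
  · exfalso
    refine h (Classical.arbitrary W) ?_
    rw [hv]
    trivial
  · refine ⟨g, og, ?_, fun x y => ?_⟩
    · rw [vg, hv, Set.preimage_univ]
    · rw [eg, hedge, hH]

end Pool.Agent.CWR
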