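import Mathlib

/-!
# Clique-width expressions
-/

namespace Pool.Agent.CWR

/-- k-expressions over the names V. -/
inductive CExpr (V : Type*) (k : ℕ) where
  /-- one vertex v with label i -/
  | vert (v : V) (i : Fin k) : CExpr V k
  /-- disjoint union -/
  | union (a b : CExpr V k) : CExpr V k
  /-- add all edges between vertices labelled i and vertices labelled j -/
  | join (i j : Fin k) (a : CExpr V k) : CExpr V k
  /-- change every label i into j -/
  | relab (i j : Fin k) (a : CExpr V k) : CExpr V k

namespace CExpr

variable {V : Type*} {k : ℕ}

/-- The vertices created by the expression. -/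
def verts : CExpr V k → Set V
  | vert v _ => {v}
  | union a b => a.verts ∪ b.verts
  | join _ _ a => a.verts
  | relab _ _ a => a.verts

open Classical in
/-- The label of a vertex (meaningful for the created vertices). -/
noncomputable def lab : CExpr V k → V → Fin k
  | vert _ i => fun _ => i
  | union a b => fun x => if x ∈ a.verts then a.lab x else b.lab x
  | join _ _ a => a.lab
  | relab i j a => fun x => if a.lab x = i then j else a.lab x

/-- The edges of the labelled graph. -/
def edge : CExpr V k → V → V → Prop
  | vert _ _ => fun _ _ => False
  | union a b => fun x y => a.edge x y ∨ b.edge x y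
  | join i j a => fun x y => a.edge x y ∨ (x ∈ a.verts ∧ y ∈ a.verts ∧
      ((a.lab x = i ∧ a.lab y = j) ∨ (a.lab x = j ∧ a.lab y = i)))
  | relab _ _ a => a.edge

/-- The expression is admissible: unions are disjoint, so that every vertex is created once, and
edges are only added between different labels. -/
def ok : CExpr V k → Prop
  | vert _ _ => True
  | union a b => a.ok ∧ b.ok ∧ Disjoint a.verts b.verts
  | join i j a => i ≠ j ∧ a.ok
  | relab _ _ a => a.ok

end CExpr

/-- The clique-width of G is at most k. -/
def CWle {V : Type*} (G : SimpleGraph V) (k : ℕ) : Prop :=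
  ∃ e : CExpr V k, e.ok ∧ e.verts = Set.univ ∧ ∀ x y, e.edge x y ↔ G.Adj x y

/-- Add to G a vertex adjacent to all its vertices. -/
def addUniversal {V : Type*} (G : SimpleGraph V) : SimpleGraph (Option V) where
  Adj a b := match a, b with
    | some v, some w => G.Adj v w
    | none, some _ => True
    | some _, none => True
    | none, none => False
  symm := ⟨fun a b h => by
    rcases a with - | a <;> rcases b with - | b <;> simp_all [G.adj_comm]⟩
  loopless := ⟨fun a h => by rcases a with - | a <;> simp_all⟩

/-- N disjoint copies of G, with a pendant vertex (i, v, true) at every vertex (i, v, false), and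
a further vertex none adjacent to exactly the pendant vertices. -/
def pendantSum {V : Type*} (G : SimpleGraph V) (N : ℕ) :
    SimpleGraph (Option (Fin N × V × Bool)) where
  Adj a b := match a, b with
    | some (i, v, false), some (j, w, false) => i = j ∧ G.Adj v w
    | some (i, v, false), some (j, w, true) => i = j ∧ v = w
    | some (i, v, true), some (j, w, false) => i = j ∧ v = w
    | some (_, _, true), some (_, _, true) => False
    | none, some (_, _, true) => True
    | some (_, _, true), none => True
    | none, some (_, _, false) => False
    | some (_, _, false), none => False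
    | none, none => False
  symm := ⟨fun a b h => by
    rcases a with - | ⟨i, v, - | -⟩ <;> rcases b with - | ⟨j, w, - | -⟩ <;>
      simp_all [G.adj_comm]⟩
  loopless := ⟨fun a h => by rcases a with - | ⟨i, v, - | -⟩ <;> simp_all⟩

/-- The decision problem CW_c: the graphs on the vertices 0, ..., n - 1 of clique-width at most c. -/
def CW (c : ℕ) (n : ℕ) : Set (SimpleGraph (Fin n)) := {G | CWle G c}

/-- The value, for a graph G, of an entry that is a constant or an entry of the adjacency matrix
of G. -/
def entryValue {n : ℕ} (G : SimpleGraph (Fin n)) : Bool ⊕ (Fin n × Fin n) → Prop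
  | Sum.inl b => b = true
  | Sum.inr p => G.Adj p.1 p.2

/-- The graph problem L reduces to the graph problem L' by projections of linear size: a graph G
with n vertices is turned into a graph H with at most C n vertices such that G is in L if and
only if H is in L'; every entry of the adjacency matrix of H is one of the constants 0 and 1 or an
entry of the adjacency matrix of G, the choice depending on n only. -/
def LinearProjection (L L' : (n : ℕ) → Set (SimpleGraph (Fin n))) : Prop :=
  ∃ C : ℕ, ∀ n, 1 ≤ n → ∃ m, 1 ≤ m ∧ m ≤ C * n ∧
    ∃ ent : Fin m → Fin m → Bool ⊕ (Fin n × Fin n), ∀ G : SimpleGraph (Fin n),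
      ∃ H : SimpleGraph (Fin m), (∀ a b, H.Adj a b ↔ entryValue G (ent a b)) ∧
        (G ∈ L n ↔ H ∈ L' m)

end Pool.Agent.CWR
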