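import Pool.Agent.CWR.Basic

/-!
# The lower bound
-/

namespace Pool.Agent.CWR

open CExpr

variable {V : Type*} {G : SimpleGraph V} {N K : ℕ}

/-- Separation of labels. -/
theorem sep {X : Type*} {H : SimpleGraph X} {e : CExpr X K} (he : e.ok)
    (hedge : ∀ x y, e.edge x y ↔ H.Adj x y) {e' : CExpr X K} (hs : Sub e' e) {x y w : X}
    (hx : x ∈ e'.verts) (hy : y ∈ e'.verts) (hw : w ∉ e'.verts) (h1 : H.Adj x w)
    (h2 : ¬ H.Adj y w) : e'.lab x ≠ e'.lab y := by
  intro hl
  have := (hs.same he hx hy hl).2 w hw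
  rw [hedge, hedge] at this
  exact h2 (this.1 h1)

/-- A crossing edge of a copy. -/
theorem crossing (hG : G.Connected) (i : Fin N) (A : Set (Option (Fin N × V × Bool))) {v v' : V}
    {b b' : Bool} (h : some (i, v, b) ∈ A) (h' : some (i, v', b') ∉ A) :
    ∃ u c u' c', some (i, u, c) ∈ A ∧ some (i, u', c') ∉ A ∧
      (pendantSum G N).Adj (some (i, u, c)) (some (i, u', c')) := by
  by_contra hcon
  push Not at hcon
  have h1 : ∀ u, some (i, u, false) ∈ A ↔ some (i, u, true) ∈ A := by
    intro u
    constructor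
    · intro hu
      by_contra hu'
      exact hcon u false u true hu hu' ⟨rfl, rfl⟩
    · intro hu
      by_contra hu'
      exact hcon u true u false hu hu' ⟨rfl, rfl⟩
  have hv : some (i, v, false) ∈ A := by
    cases b
    · exact h
    · exact (h1 v).2 h
  have hv' : some (i, v', false) ∉ A := by
    cases b'
    · exact h'
    · exact fun hh => h' ((h1 v').1 hh)
  obtain ⟨p⟩ := hG.preconnected v v'
  obtain ⟨d, -, hd1, hd2⟩ := p.exists_boundary_dart {u | some (i, u, false) ∈ A} hv hv'
  exact hcon d.fst false d.snd false hd1 hd2 ⟨rfl, d.adj⟩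

/-- The copies partly inside. -/
def part (A : Set (Option (Fin N × V × Bool))) : Set (Fin N) :=
  {i | (∃ v b, some (i, v, b) ∈ A) ∧ ∃ v b, some (i, v, b) ∉ A}

/-- The copies inside. -/
def full (A : Set (Option (Fin N × V × Bool))) : Set (Fin N) :=
  {i | ∀ v b, some (i, v, b) ∈ A}

theorem adj_copy {i j : Fin N} {v w : V} {a b : Bool}
    (h : (pendantSum G N).Adj (some (i, v, a)) (some (j, w, b))) : i = j := by
  cases a <;> cases b
  · exact h.1
  · exact h.1
  · exact h.1
  · exact h.elim

theorem part_card (hG : G.Connected) {e : CExpr (Option (Fin N × V × Bool)) K} (he : e.ok)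
    (hedge : ∀ x y, e.edge x y ↔ (pendantSum G N).Adj x y)
    {e' : CExpr (Option (Fin N × V × Bool)) K} (hs : Sub e' e) : (part e'.verts).ncard ≤ K := by
  have h1 : ∀ i ∈ part e'.verts, ∃ x, (∃ u c, x = some (i, u, c)) ∧ x ∈ e'.verts ∧
      ∃ u' c', some (i, u', c') ∉ e'.verts ∧ (pendantSum G N).Adj x (some (i, u', c')) := by
    rintro i ⟨⟨v, b, h⟩, ⟨v', b', h'⟩⟩
    obtain ⟨u, c, u', c', h1, h2, h3⟩ := crossing hG i _ h h'
    exact ⟨_, ⟨u, c, rfl⟩, h1, u', c', h2, h3⟩
  choose! x hx1 hx2 hx3 using h1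
  have hinj : Set.InjOn (fun i => e'.lab (x i)) (part e'.verts) := by
    intro i hi j hj hij
    by_contra hne
    obtain ⟨u', c', h1, h2⟩ := hx3 i hi
    refine sep he hedge hs (hx2 i hi) (hx2 j hj) h1 h2 ?_ hij
    intro h3
    obtain ⟨u, c, h4⟩ := hx1 j hj
    rw [h4] at h3
    exact hne (adj_copy h3).symm
  calc (part e'.verts).ncard = ((fun i => e'.lab (x i)) '' part e'.verts).ncard :=
        hinj.ncard_image.symm
    _ ≤ (Set.univ : Set (Fin K)).ncard := Set.ncard_le_ncard (Set.subset_univ _) (Set.toFinite _)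
    _ = K := by simp [Set.ncard_univ]

/-- A minimal subexpression with a full copy. -/
theorem exists_union [Nonempty V] (e : CExpr (Option (Fin N × V × Bool)) K)
    (h : (full e.verts).Nonempty) : ∃ a b, Sub (union a b) e ∧ (full (union a b).verts).Nonempty ∧
      ¬ (full a.verts).Nonempty ∧ ¬ (full b.verts).Nonempty := by
  induction e with
  | vert x t =>
    exfalso
    obtain ⟨i, hi⟩ := h
    have h1 : some (i, Classical.arbitrary V, true) = x := hi _ _
    have h2 : some (i, Classical.arbitrary V, false) = x := hi _ _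
    rw [← h1] at h2
    simp at h2
  | union a b iha ihb =>
    by_cases ha : (full a.verts).Nonempty
    · obtain ⟨p, q, h1, h2⟩ := iha ha
      exact ⟨p, q, .ul h1, h2⟩
    · by_cases hb : (full b.verts).Nonempty
      · obtain ⟨p, q, h1, h2⟩ := ihb hb
        exact ⟨p, q, .ur h1, h2⟩
      · exact ⟨a, b, .refl _, h, ha, hb⟩
  | join s t a ih =>
    obtain ⟨p, q, h1, h2⟩ := ih h
    exact ⟨p, q, .jn h1, h2⟩
  | relab s t a ih =>
    obtain ⟨p, q, h1, h2⟩ := ih h
    exact ⟨p, q, .rl h1, h2⟩

/-- The vertices of G in the copy i. -/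
def inc (N : ℕ) (V : Type*) (i : Fin N) (v : V) : Option (Fin N × V × Bool) := some (i, v, false)

theorem inc_injective (i : Fin N) : Function.Injective (inc N V i) := by
  intro v w h
  simpa [inc] using h

/-- Not all labels are used below. -/
theorem not_all_used [Nonempty V] {e : CExpr (Option (Fin N × V × Bool)) K} (he : e.ok)
    (hedge : ∀ x y, e.edge x y ↔ (pendantSum G N).Adj x y)
    {m : CExpr (Option (Fin N × V × Bool)) K} (hm : Sub m e) {i l : Fin N}
    (hi : i ∈ full m.verts) (hl : ∀ v b, some (l, v, b) ∉ m.verts)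
    {e' : CExpr (Option (Fin N × V × Bool)) K} (hs : Sub e' m)
    (hall : ∀ t, t ∈ used (inc N V i) e') : False := by
  let v1 : V := Classical.arbitrary V
  have hil : i ≠ l := fun h => hl v1 true (h ▸ hi v1 true)
  -- separation in subexpressions of m
  have hsep : ∀ {u : CExpr (Option (Fin N × V × Bool)) K}, Sub u m → ∀ {x y w},
      x ∈ u.verts → y ∈ u.verts → w ∉ u.verts → (pendantSum G N).Adj x w →
      ¬ (pendantSum G N).Adj y w → u.lab x = u.lab y → False := by
    intro u hu x y w hx hy hw h1 h2 h3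
    exact sep he hedge (hu.trans hm) hx hy hw h1 h2 h3
  have hlu : ∀ {u : CExpr (Option (Fin N × V × Bool)) K}, Sub u m → ∀ v b,
      some (l, v, b) ∉ u.verts := fun hu v b h => hl v b (hu.verts_subset h)
  have hzadj : ∀ v0 : V, ¬ (pendantSum G N).Adj (inc N V i v0) none := fun v0 h => h
  have hladj : ∀ v0 w : V, ¬ (pendantSum G N).Adj (inc N V i v0) (some (l, w, true)) :=
    fun v0 w h => hil h.1
  -- general elimination: u with a set B of vertices sharing labels with copy i
  have hz : ∀ {u : CExpr (Option (Fin N × V × Bool)) K}, Sub u m → ∀ v0, inc N V i v0 ∈ u.verts →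
      none ∈ u.verts → u.lab none = u.lab (inc N V i v0) → False := by
    intro u hu v0 h0 h1 h2
    exact hsep hu h1 h0 (hlu hu v1 true) trivial (hladj v0 v1) h2
  have hp : ∀ {u : CExpr (Option (Fin N × V × Bool)) K}, Sub u m → ∀ v0, inc N V i v0 ∈ u.verts →
      none ∉ u.verts → ∀ j v, some (j, v, true) ∈ u.verts →
      u.lab (some (j, v, true)) = u.lab (inc N V i v0) → False := by
    intro u hu v0 h0 h1 j v h2 h3
    exact hsep hu h2 h0 h1 trivial (hzadj v0) h3
  have hf : ∀ {u : CExpr (Option (Fin N × V × Bool)) K}, Sub u m → ∀ y, y ∈ u.verts →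
      ∀ j v, some (j, v, false) ∈ u.verts → some (j, v, true) ∉ u.verts → (∀ a b, y ≠ some (a, b, true)) →
      y ≠ some (j, v, false) → y ≠ none →
      u.lab (some (j, v, false)) = u.lab y → False := by
    intro u hu y h0 j v h1 h2 h3 h4 h5 h6
    refine hsep hu h1 h0 h2 ⟨rfl, rfl⟩ ?_ h6
    intro h7
    rcases y with - | ⟨a, b, - | -⟩
    · exact h5 rfl
    · obtain ⟨h8, h9⟩ := h7
      subst h8 h9
      exact h4 rfl
    · exact h3 a b rfl
  have hze : none ∉ e'.verts := by
    intro h
    obtain ⟨v0, h0, h1⟩ := hall (e'.lab none)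
    exact hz hs v0 h0 h h1.symm
  have hpe : ∀ j v, some (j, v, true) ∉ e'.verts := by
    intro j v h
    obtain ⟨v0, h0, h1⟩ := hall (e'.lab (some (j, v, true)))
    exact hp hs v0 h0 hze j v h h1.symm
  -- labels are injective on the copy in every subexpression with the same vertices
  have hinj : ∀ {d : CExpr (Option (Fin N × V × Bool)) K}, Sub d m → d.verts = e'.verts →
      ∀ x y : V, inc N V i x ∈ d.verts → inc N V i y ∈ d.verts →
      d.lab (inc N V i x) = d.lab (inc N V i y) → x = y := by
    intro d hd hde x y hx hy hxy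
    by_contra hne
    refine hf hd (inc N V i y) hy i x hx ?_ ?_ ?_ ?_ hxy
    · rw [hde]
      exact hpe i x
    · intro a b
      simp [inc]
    · intro h
      exact hne (inc_injective i h).symm
    · simp [inc]
  have hall' : ∀ {d : CExpr (Option (Fin N × V × Bool)) K}, Sub d m → d.verts = e'.verts →
      ∀ t, ∃ v0, inc N V i v0 ∈ e'.verts ∧ d.lab (inc N V i v0) = t := by
    intro d hd hde
    choose s hs1 hs2 using hall
    have hsi : Function.Injective (fun t => d.lab (inc N V i (s t))) := by
      intro t t' htt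
      have := hinj hd hde (s t) (s t') (by rw [hde]; exact hs1 t) (by rw [hde]; exact hs1 t') htt
      rw [← hs2 t, ← hs2 t', this]
    intro t
    obtain ⟨t', ht'⟩ := Finite.surjective_of_injective hsi t
    exact ⟨s t', hs1 t', ht'⟩
  have hne : e'.verts ≠ m.verts := by
    intro h
    exact hpe i v1 (by rw [h]; exact hi v1 true)
  -- the final contradiction
  have hfin : ∀ {u : CExpr (Option (Fin N × V × Bool)) K}, Sub u m →
      ∀ B : Set (Option (Fin N × V × Bool)), u.verts = e'.verts ∪ B → Disjoint e'.verts B →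
      (∀ y ∈ B, ∃ v0, inc N V i v0 ∈ e'.verts ∧ u.lab (inc N V i v0) = u.lab y) → ¬ B.Nonempty := by
    intro u hu B huB hdis hB hBn
    have hBu : ∀ y ∈ B, y ∈ u.verts := fun y hy => by
      rw [huB]
      exact Or.inr hy
    have heu : ∀ y ∈ e'.verts, y ∈ u.verts := fun y hy => by
      rw [huB]
      exact Or.inl hy
    have hz' : none ∉ B := by
      intro h
      obtain ⟨v0, h0, h1⟩ := hB _ h
      exact hz hu v0 (heu _ h0) (hBu _ h) h1.symm
    have hzu : none ∉ u.verts := by
      rw [huB]
      rintro (h | h)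
      · exact hze h
      · exact hz' h
    have hp' : ∀ j v, some (j, v, true) ∉ B := by
      intro j v h
      obtain ⟨v0, h0, h1⟩ := hB _ h
      exact hp hu v0 (heu _ h0) hzu j v (hBu _ h) h1.symm
    obtain ⟨y, hy⟩ := hBn
    rcases y with - | ⟨j, v, - | -⟩
    · exact hz' hy
    · obtain ⟨v0, h0, h1⟩ := hB _ hy
      refine hf hu (inc N V i v0) (heu _ h0) j v (hBu _ hy) ?_ ?_ ?_ ?_ h1.symm
      · rw [huB]
        rintro (h | h)
        · exact hpe j v h
        · exact hp' j v h
      · intro a b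
        simp [inc]
      · intro h
        rw [h] at h0
        exact Set.disjoint_left.1 hdis h0 hy
      · simp [inc]
    · exact hp' j v hy
  obtain ⟨a, b, hab, h⟩ := hs.next hne
  obtain ⟨-, -, hd⟩ := (hab.trans hm).ok he
  rcases h with ⟨h1, h2⟩ | ⟨h1, h2⟩
  · refine hfin hab b.verts ?_ ?_ ?_ b.verts_nonempty
    · rw [← h2]
      rfl
    · rw [← h2]
      exact hd
    · intro y hy
      obtain ⟨v0, h3, h4⟩ := hall' ((Sub.ul (.refl a)).trans hab) h2 (b.lab y)
      refine ⟨v0, h3, ?_⟩
      rw [lab_union_right hd hy, lab_union_left (by rw [h2]; exact h3), h4]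
  · refine hfin hab a.verts ?_ ?_ ?_ a.verts_nonempty
    · rw [← h2, Set.union_comm]
      rfl
    · rw [← h2]
      exact hd.symm
    · intro y hy
      obtain ⟨v0, h3, h4⟩ := hall' ((Sub.ur (.refl b)).trans hab) h2 (a.lab y)
      refine ⟨v0, h3, ?_⟩
      rw [lab_union_left hy, lab_union_right hd (by rw [h2]; exact h3), h4]

/-- The lower bound. -/
theorem pendantSum_lower [Nonempty V] (hG : G.Connected) {c : ℕ} (hc : 1 ≤ c)
    (hN : 2 * c + 3 ≤ N) (h : CWle (pendantSum G N) (c + 1)) : CWle G c := by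
  obtain ⟨e, he, hv, hedge⟩ := h
  have hNe : (full e.verts).Nonempty := by
    refine ⟨⟨0, by omega⟩, fun v b => ?_⟩
    rw [hv]
    trivial
  obtain ⟨a, b, hab, hfull, ha, hb⟩ := exists_union e hNe
  have hsub : full (union a b).verts ⊆ part a.verts := by
    intro i hi
    have h1 : ¬ ∀ v t, some (i, v, t) ∈ a.verts := fun h => ha ⟨i, h⟩
    have h2 : ¬ ∀ v t, some (i, v, t) ∈ b.verts := fun h => hb ⟨i, h⟩
    push Not at h1 h2
    obtain ⟨v, t, h2⟩ := h2
    exact ⟨⟨v, t, (hi v t).resolve_right h2⟩, h1⟩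
  have h1 : (full (union a b).verts).ncard ≤ c + 1 :=
    (Set.ncard_le_ncard hsub (Set.toFinite _)).trans
      (part_card hG he hedge ((Sub.ul (.refl a)).trans hab))
  have h2 : (part (union a b).verts).ncard ≤ c + 1 := part_card hG he hedge hab
  obtain ⟨l, hl⟩ : ∃ l, l ∉ full (union a b).verts ∪ part (union a b).verts := by
    by_contra hcon
    push Not at hcon
    have h3 : full (union a b).verts ∪ part (union a b).verts = Set.univ :=
      Set.eq_univ_of_forall hcon
    have h4 := Set.ncard_union_le (full (union a b).verts) (part (union a b).verts)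
    rw [h3, Set.ncard_univ, Nat.card_eq_fintype_card, Fintype.card_fin] at h4
    omega
  have hl' : ∀ v t, some (l, v, t) ∉ (union a b).verts := by
    intro v t hvt
    refine hl (Or.inl ?_)
    by_contra hcon
    have hcon : ¬ ∀ v t, some (l, v, t) ∈ (union a b).verts := hcon
    push Not at hcon
    exact hl (Or.inr ⟨⟨v, t, hvt⟩, hcon⟩)
  obtain ⟨i, hi⟩ := hfull
  -- every subexpression misses a label on the copy i
  have hmiss : ∀ e', Sub e' e → ∃ t, t ∉ used (inc N V i) e' := by
    intro e' hs
    by_contra hcon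
    push Not at hcon
    rcases hs.tri hab he with h | h | h
    · exact not_all_used he hedge hab hi hl' h hcon
    · refine not_all_used he hedge hab hi hl' (.refl _) (fun t => ?_)
      choose s hs1 hs2 using hcon
      have hin : ∀ v, inc N V i v ∈ (union a b).verts := fun v => hi v false
      have hinj : Function.Injective (fun t => (union a b).lab (inc N V i (s t))) := by
        intro t t' htt
        have := (h.same (hs.ok he) (hin (s t)) (hin (s t')) htt).1
        rw [← hs2 t, ← hs2 t', this]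
      obtain ⟨t', ht'⟩ := Finite.surjective_of_injective hinj t
      exact ⟨s t', hin _, ht'⟩
    · obtain ⟨v, hv1, -⟩ := hcon (Fin.last c)
      exact Set.disjoint_left.1 h hv1 (hi v false)
  have hk : ∀ e', Sub e' e → (used (inc N V i) e').ncard ≤ c := by
    intro e' hs
    obtain ⟨t, ht⟩ := hmiss e' hs
    have h3 : used (inc N V i) e' ⊆ Set.univ \ {t} := fun s hs' => ⟨trivial, fun h => ht (h ▸ hs')⟩
    have h4 := Set.ncard_le_ncard h3 (Set.toFinite _)
    have h5 := Set.ncard_sdiff_singleton_add_one (Set.mem_univ t) (Set.toFinite _)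
    rw [Set.ncard_univ, Nat.card_eq_fintype_card, Fintype.card_fin] at h5
    omega
  -- the map of labels
  obtain ⟨h, hinj⟩ : ∃ h : Fin (c + 1) → Fin c, Set.InjOn h (used (inc N V i) e) := by
    classical
    have h3 := hk e (.refl e)
    rw [← Nat.card_coe_set_eq, Nat.card_eq_fintype_card] at h3
    obtain ⟨emb⟩ := Function.Embedding.nonempty_of_card_le
      (α := used (inc N V i) e) (β := Fin c) (by rw [Fintype.card_fin]; exact h3)
    refine ⟨fun t => if ht : t ∈ used (inc N V i) e then emb ⟨t, ht⟩ else ⟨0, by omega⟩, ?_⟩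
    intro x hx y hy hxy
    simp only [hx, hy, dif_pos] at hxy
    simpa using emb.injective hxy
  rcases restrict (inc N V i) (inc_injective i) e he hk h hinj with h | ⟨g, og, vg, -, eg⟩
  · exfalso
    refine h (Classical.arbitrary V) ?_
    rw [hv]
    trivial
  · refine ⟨g, og, ?_, fun x y => ?_⟩
    · rw [vg, hv, Set.preimage_univ]
    · rw [eg, hedge]
      exact ⟨fun h => h.2, fun h => ⟨rfl, h⟩⟩

end Pool.Agent.CWR
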