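import Pool.Agent.CWR.Upper
import Pool.Agent.CWR.Lower

/-!
# The reductions
-/

namespace Pool.Agent.CWR

theorem pendantSum_iff {V : Type*} [Nonempty V] {G : SimpleGraph V} (hG : G.Connected) {c : ℕ}
    (hc : 2 ≤ c) {N : ℕ} (hN : 2 * c + 3 ≤ N) : CWle (pendantSum G N) (c + 1) ↔ CWle G c :=
  ⟨pendantSum_lower hG (by omega) hN, pendantSum_upper hc N⟩

theorem addUniversal_iff {V : Type*} [Nonempty V] {G : SimpleGraph V} {c : ℕ}
    (hc : 2 ≤ c) : CWle (addUniversal G) c ↔ CWle G c :=
  ⟨fun h => h.comap some (Option.some_injective V) (fun _ _ => Iff.rfl), addUniversal_upper hc⟩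

theorem addUniversal_connected {V : Type*} (G : SimpleGraph V) : (addUniversal G).Connected := by
  rw [SimpleGraph.connected_iff_exists_forall_reachable]
  refine ⟨none, fun w => ?_⟩
  rcases w with - | w
  · exact SimpleGraph.Reachable.refl _
  · have : (addUniversal G).Adj none (some w) := trivial
    exact this.reachable

theorem raise_iff {V : Type*} [Nonempty V] (G : SimpleGraph V) {c : ℕ} (hc : 2 ≤ c) {N : ℕ}
    (hN : 2 * c + 3 ≤ N) : CWle (pendantSum (addUniversal G) N) (c + 1) ↔ CWle G c :=
  (pendantSum_iff (addUniversal_connected G) hc hN).trans (addUniversal_iff hc)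

theorem LinearProjection.refl (L : (n : ℕ) → Set (SimpleGraph (Fin n))) : LinearProjection L L :=
  ⟨1, fun n hn => ⟨n, hn, by omega, fun a b => Sum.inr (a, b), fun G => ⟨G, fun _ _ => Iff.rfl,
    Iff.rfl⟩⟩⟩

theorem LinearProjection.trans {L L' L'' : (n : ℕ) → Set (SimpleGraph (Fin n))}
    (h : LinearProjection L L') (h' : LinearProjection L' L'') : LinearProjection L L'' := by
  obtain ⟨C, h⟩ := h
  obtain ⟨C', h'⟩ := h'
  refine ⟨C' * C, fun n hn => ?_⟩
  obtain ⟨m, hm1, hm, ent, h⟩ := h n hn
  obtain ⟨m', hm1', hm', ent', h'⟩ := h' m hm1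
  refine ⟨m', hm1', ?_, fun a b => Sum.elim Sum.inl (fun p => ent p.1 p.2) (ent' a b), fun G => ?_⟩
  · calc m' ≤ C' * m := hm'
      _ ≤ C' * (C * n) := Nat.mul_le_mul_left _ hm
      _ = C' * C * n := by ring
  · obtain ⟨H, hH1, hH2⟩ := h G
    obtain ⟨K, hK1, hK2⟩ := h' H
    refine ⟨K, fun a b => ?_, hH2.trans hK2⟩
    rw [hK1]
    show entryValue H (ent' a b) ↔
      entryValue G (Sum.elim Sum.inl (fun p => ent p.1 p.2) (ent' a b))
    rcases ent' a b with b | p
    · exact Iff.rfl
    · exact hH1 _ _

/-- The entries of the adjacency matrix of the raised graph. -/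
def raiseEntry {N n : ℕ} : Option (Fin N × Option (Fin n) × Bool) →
    Option (Fin N × Option (Fin n) × Bool) → Bool ⊕ (Fin n × Fin n)
  | some (i, some v, false), some (j, some w, false) =>
      if i = j then Sum.inr (v, w) else Sum.inl false
  | some (i, none, false), some (j, some _, false) => Sum.inl (decide (i = j))
  | some (i, some _, false), some (j, none, false) => Sum.inl (decide (i = j))
  | some (_, none, false), some (_, none, false) => Sum.inl false
  | some (i, v, false), some (j, w, true) => Sum.inl (decide (i = j ∧ v = w))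
  | some (i, v, true), some (j, w, false) => Sum.inl (decide (i = j ∧ v = w))
  | some (_, _, true), some (_, _, true) => Sum.inl false
  | none, some (_, _, true) => Sum.inl true
  | some (_, _, true), none => Sum.inl true
  | none, some (_, _, false) => Sum.inl false
  | some (_, _, false), none => Sum.inl false
  | none, none => Sum.inl false

theorem raiseEntry_spec {N n : ℕ} (G : SimpleGraph (Fin n))
    (a b : Option (Fin N × Option (Fin n) × Bool)) :
    (pendantSum (addUniversal G) N).Adj a b ↔ entryValue G (raiseEntry a b) := by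
  rcases a with - | ⟨i, - | v, - | -⟩ <;> rcases b with - | ⟨j, - | w, - | -⟩ <;>
    simp only [pendantSum, addUniversal, raiseEntry, entryValue, decide_eq_true_eq, Bool.false_eq_true,
      and_false, and_true] 
  split_ifs with h
  · simp [h]
  · simp [h]

theorem CWle.equiv {V W : Type*} {G : SimpleGraph V} {c : ℕ}
    (e : W ≃ V) : CWle (G.comap e) c ↔ CWle G c := by
  constructor
  · rintro ⟨g, og, vg, eg⟩
    have : Nonempty V := by
      obtain ⟨w, -⟩ := g.verts_nonempty
      exact ⟨e w⟩
    refine CWle.comap ⟨g, og, vg, eg⟩ e.symm e.symm.injective (fun x y => ?_)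
    simp
  · rintro ⟨g, og, vg, eg⟩
    have : Nonempty W := by
      obtain ⟨w, -⟩ := g.verts_nonempty
      exact ⟨e.symm w⟩
    exact CWle.comap ⟨g, og, vg, eg⟩ e e.injective (fun x y => Iff.rfl)

theorem proj_succ {c : ℕ} (hc : 2 ≤ c) : LinearProjection (CW c) (CW (c + 1)) := by
  refine ⟨(2 * c + 3) * 4 + 1, fun n hn => ?_⟩
  have : Nonempty (Fin n) := ⟨⟨0, by omega⟩⟩
  let X := Option (Fin (2 * c + 3) × Option (Fin n) × Bool)
  have hcard : Fintype.card X = (2 * c + 3) * ((n + 1) * 2) + 1 := by
    simp [X]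
  let e : Fin (Fintype.card X) ≃ X := (Fintype.equivFin X).symm
  refine ⟨Fintype.card X, by omega, ?_, fun a b => raiseEntry (e a) (e b), fun G => ?_⟩
  · rw [hcard]
    nlinarith [Nat.zero_le (c * n), Nat.zero_le c]
  · refine ⟨(pendantSum (addUniversal G) (2 * c + 3)).comap e, fun a b => ?_, ?_⟩
    · exact raiseEntry_spec G (e a) (e b)
    · show CWle G c ↔ CWle _ (c + 1)
      rw [CWle.equiv e, raise_iff G hc le_rfl]

theorem proj_le {c d : ℕ} (hc : 2 ≤ c) (hcd : c ≤ d) : LinearProjection (CW c) (CW d) := by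
  induction d, hcd using Nat.le_induction with
  | base => exact LinearProjection.refl _
  | succ d hcd ih => exact ih.trans (proj_succ (hc.trans hcd))

end Pool.Agent.CWR
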