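import Pool.Agent.CWR.Basic

/-!
# The upper bounds
-/

namespace Pool.Agent.CWR

namespace CExpr

variable {V W : Type*} {k : ℕ}

/-- Relabel all the labels in the list into j. -/
def flat (j : Fin k) : List (Fin k) → CExpr V k → CExpr V k
  | [], e => e
  | i :: l, e => relab i j (flat j l e)

theorem flat_verts (j : Fin k) (l : List (Fin k)) (e : CExpr V k) :
    (flat j l e).verts = e.verts := by
  induction l with
  | nil => rfl
  | cons i l ih => exact ih

theorem flat_edge (j : Fin k) (l : List (Fin k)) (e : CExpr V k) :
    (flat j l e).edge = e.edge := by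
  induction l with
  | nil => rfl
  | cons i l ih => exact ih

theorem flat_ok (j : Fin k) (l : List (Fin k)) (e : CExpr V k) (h : e.ok) :
    (flat j l e).ok := by
  induction l with
  | nil => exact h
  | cons i l ih => exact ih

theorem flat_lab_mem (j : Fin k) (l : List (Fin k)) (e : CExpr V k) (x : V)
    (h : e.lab x ∈ l) : (flat j l e).lab x = j := by
  have key : ∀ l : List (Fin k), (flat j l e).lab x = if e.lab x ∈ l then j else e.lab x := by
    intro l
    induction l with
    | nil => simp [flat]
    | cons i l ih =>
      show (if (flat j l e).lab x = i then j else (flat j l e).lab x) = _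
      rw [ih]
      by_cases h1 : e.lab x ∈ l
      · simp [h1]
      · rw [if_neg h1]
        by_cases h2 : e.lab x = i
        · rw [if_pos h2, if_pos (by simp [h2])]
        · rw [if_neg h2, if_neg (by simp [h1, h2])]
  rw [key, if_pos h]

theorem flat_lab_not (j : Fin k) (l : List (Fin k)) (e : CExpr V k) (x : V)
    (h : e.lab x ∉ l) : (flat j l e).lab x = e.lab x := by
  induction l with
  | nil => rfl
  | cons i l ih =>
    have h1 : e.lab x ≠ i := fun hh => h (by simp [hh])
    have h2 : e.lab x ∉ l := fun hh => h (List.mem_cons_of_mem _ hh)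
    show (if (flat j l e).lab x = i then j else (flat j l e).lab x) = _
    rw [ih h2, if_neg h1]

/-- Rename the vertices. -/
def map (f : V → W) : CExpr V k → CExpr W k
  | vert v i => vert (f v) i
  | union a b => union (map f a) (map f b)
  | join i j a => join i j (map f a)
  | relab i j a => relab i j (map f a)

theorem map_verts (f : V → W) (e : CExpr V k) : (map f e).verts = f '' e.verts := by
  induction e with
  | vert v i => simp [map, verts]
  | union a b iha ihb => simp only [map, verts, iha, ihb, Set.image_union]
  | join i j a ih => exact ih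
  | relab i j a ih => exact ih

theorem map_mem (f : V → W) (hf : Function.Injective f) (e : CExpr V k) (v : V) :
    f v ∈ (map f e).verts ↔ v ∈ e.verts := by
  rw [map_verts, hf.mem_set_image]

theorem map_lab (f : V → W) (hf : Function.Injective f) (e : CExpr V k) (v : V) :
    (map f e).lab (f v) = e.lab v := by
  induction e with
  | vert v i => rfl
  | union a b iha ihb =>
    by_cases ha : v ∈ a.verts
    · rw [lab_union_left ha]
      exact (lab_union_left ((map_mem f hf a v).2 ha)).trans iha
    · rw [lab_union_not ha]
      exact (lab_union_not (fun h => ha ((map_mem f hf a v).1 h))).trans ihb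
  | join i j a ih => exact ih
  | relab i j a ih => simp only [map, lab, ih]

theorem map_edge (f : V → W) (hf : Function.Injective f) (e : CExpr V k) (v w : V) :
    (map f e).edge (f v) (f w) ↔ e.edge v w := by
  induction e with
  | vert v i => exact Iff.rfl
  | union a b iha ihb => simp only [map, edge, iha, ihb]
  | join i j a ih => simp only [map, edge, ih, map_mem f hf, map_lab f hf]
  | relab i j a ih => exact ih

theorem map_ok (f : V → W) (hf : Function.Injective f) (e : CExpr V k) (h : e.ok) :
    (map f e).ok := by
  induction e with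
  | vert v i => trivial
  | union a b iha ihb =>
    refine ⟨iha h.1, ihb h.2.1, ?_⟩
    rw [map_verts, map_verts]
    exact (Set.disjoint_image_iff hf).2 h.2.2
  | join i j a ih => exact ⟨h.1, ih h.2⟩
  | relab i j a ih => exact ih h

/-- The copy number i, with pendant vertices of the last label. -/
def cp {N : ℕ} (i : Fin N) : CExpr V k → CExpr (Option (Fin N × V × Bool)) (k + 1)
  | vert v a => join a.castSucc (Fin.last k)
      (union (vert (some (i, v, false)) a.castSucc) (vert (some (i, v, true)) (Fin.last k)))
  | union a b => union (cp i a) (cp i b)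
  | join s t a => join s.castSucc t.castSucc (cp i a)
  | relab s t a => relab s.castSucc t.castSucc (cp i a)

theorem cp_mem {N : ℕ} (i : Fin N) (e : CExpr V k) (x : Option (Fin N × V × Bool)) :
    x ∈ (cp i e).verts ↔ ∃ v ∈ e.verts, ∃ b, x = some (i, v, b) := by
  induction e with
  | vert v a =>
    simp only [cp, verts, Set.mem_union, Set.mem_singleton_iff, exists_eq_left]
    constructor
    · rintro (h | h)
      · exact ⟨false, h⟩
      · exact ⟨true, h⟩
    · rintro ⟨- | -, h⟩
      · exact Or.inl h
      · exact Or.inr h
  | union a b iha ihb =>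
    simp only [cp, verts, Set.mem_union, iha, ihb]
    constructor
    · rintro (⟨v, hv, h⟩ | ⟨v, hv, h⟩)
      · exact ⟨v, Or.inl hv, h⟩
      · exact ⟨v, Or.inr hv, h⟩
    · rintro ⟨v, hv | hv, h⟩
      · exact Or.inl ⟨v, hv, h⟩
      · exact Or.inr ⟨v, hv, h⟩
  | join s t a ih => exact ih
  | relab s t a ih => exact ih

theorem cp_mem' {N : ℕ} (i : Fin N) (e : CExpr V k) (v : V) (b : Bool) :
    some (i, v, b) ∈ (cp i e).verts ↔ v ∈ e.verts := by
  rw [cp_mem]
  constructor
  · rintro ⟨w, hw, c, h⟩
    simp only [Option.some.injEq, Prod.mk.injEq, true_and] at h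
    rw [h.1]
    exact hw
  · intro h
    exact ⟨v, h, b, rfl⟩

theorem cp_lab_true {N : ℕ} (i : Fin N) (e : CExpr V k) (v : V) (hv : v ∈ e.verts) :
    (cp i e).lab (some (i, v, true)) = Fin.last k := by
  induction e with
  | vert w a =>
    have : v = w := hv
    subst this
    simp [cp, lab, verts]
  | union a b iha ihb =>
    by_cases ha : v ∈ a.verts
    · exact (lab_union_left ((cp_mem' i a v true).2 ha)).trans (iha ha)
    · exact (lab_union_not (fun h => ha ((cp_mem' i a v true).1 h))).trans
        (ihb (hv.resolve_left ha))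
  | join s t a ih => exact ih hv
  | relab s t a ih =>
    simp only [cp, lab, ih hv]
    rw [if_neg (Fin.castSucc_lt_last s).ne']

theorem cp_lab_false {N : ℕ} (i : Fin N) (e : CExpr V k) (v : V) (hv : v ∈ e.verts) :
    (cp i e).lab (some (i, v, false)) = (e.lab v).castSucc := by
  induction e with
  | vert w a =>
    have : v = w := hv
    subst this
    simp [cp, lab, verts]
  | union a b iha ihb =>
    by_cases ha : v ∈ a.verts
    · rw [lab_union_left ha]
      exact (lab_union_left ((cp_mem' i a v false).2 ha)).trans (iha ha)
    · rw [lab_union_not ha]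
      exact (lab_union_not (fun h => ha ((cp_mem' i a v false).1 h))).trans
        (ihb (hv.resolve_left ha))
  | join s t a ih => exact ih hv
  | relab s t a ih =>
    simp only [cp, lab, ih hv, Fin.castSucc_inj]
    split_ifs <;> rfl

theorem cp_ok {N : ℕ} (i : Fin N) (e : CExpr V k) (he : e.ok) : (cp i e).ok := by
  induction e with
  | vert v a =>
    refine ⟨(Fin.castSucc_lt_last a).ne, trivial, trivial, ?_⟩
    simp [verts]
  | union a b iha ihb =>
    refine ⟨iha he.1, ihb he.2.1, ?_⟩
    rw [Set.disjoint_left]
    intro x hx hx'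
    obtain ⟨v, hv, b, rfl⟩ := (cp_mem i _ _).1 hx
    rw [cp_mem'] at hx'
    exact Set.disjoint_left.1 he.2.2 hv hx'
  | join s t a ih => exact ⟨fun h => he.1 (Fin.castSucc_injective _ h), ih he.2⟩
  | relab s t a ih => exact ih he

theorem cp_edge_ff {N : ℕ} (i : Fin N) (e : CExpr V k) (v w : V) :
    (cp i e).edge (some (i, v, false)) (some (i, w, false)) ↔ e.edge v w := by
  induction e with
  | vert u a =>
    simp only [cp, edge, verts, lab]
    simp
    grind
  | union a b iha ihb => simp only [cp, edge, iha, ihb]
  | join s t a ih =>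
    simp only [cp, edge, ih, cp_mem']
    refine or_congr Iff.rfl (and_congr_right fun hv => and_congr_right fun hw => ?_)
    rw [cp_lab_false i a v hv, cp_lab_false i a w hw]
    simp only [Fin.castSucc_inj]
  | relab s t a ih => exact ih

theorem cp_edge_tt {N : ℕ} (i : Fin N) (e : CExpr V k) (v w : V) :
    ¬ (cp i e).edge (some (i, v, true)) (some (i, w, true)) := by
  induction e with
  | vert u a =>
    simp only [cp, edge, verts, lab]
    simp
    grind
  | union a b iha ihb => simp only [cp, edge, iha, ihb, or_self, not_false_eq_true]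
  | join s t a ih =>
    simp only [cp, edge, ih, cp_mem', false_or]
    rintro ⟨hv, hw, h⟩
    rw [cp_lab_true i a v hv, cp_lab_true i a w hw] at h
    rcases h with h | h
    · exact (Fin.castSucc_lt_last s).ne h.1.symm
    · exact (Fin.castSucc_lt_last s).ne h.2.symm
  | relab s t a ih => exact ih

theorem cp_edge_ft {N : ℕ} (i : Fin N) (e : CExpr V k) (v w : V) :
    (cp i e).edge (some (i, v, false)) (some (i, w, true)) ↔ v = w ∧ v ∈ e.verts := by
  induction e with
  | vert u a =>
    simp only [cp, edge, verts, lab]
    simp
    grind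
  | union a b iha ihb =>
    simp only [cp, edge, iha, ihb, verts, Set.mem_union]
    tauto
  | join s t a ih =>
    simp only [cp, edge, ih, cp_mem', verts]
    constructor
    · rintro (h | ⟨hv, hw, h⟩)
      · exact h
      · rw [cp_lab_true i a w hw] at h
        rcases h with h | h
        · exact absurd h.2.symm (Fin.castSucc_lt_last t).ne
        · exact absurd h.2.symm (Fin.castSucc_lt_last s).ne
    · exact Or.inl
  | relab s t a ih => exact ih

theorem cp_edge_tf {N : ℕ} (i : Fin N) (e : CExpr V k) (v w : V) :
    (cp i e).edge (some (i, v, true)) (some (i, w, false)) ↔ v = w ∧ v ∈ e.verts := by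
  induction e with
  | vert u a =>
    simp only [cp, edge, verts, lab]
    simp
    grind
  | union a b iha ihb =>
    simp only [cp, edge, iha, ihb, verts, Set.mem_union]
    tauto
  | join s t a ih =>
    simp only [cp, edge, ih, cp_mem', verts]
    constructor
    · rintro (h | ⟨hv, hw, h⟩)
      · exact h
      · rw [cp_lab_true i a v hv] at h
        rcases h with h | h
        · exact absurd h.1.symm (Fin.castSucc_lt_last s).ne
        · exact absurd h.1.symm (Fin.castSucc_lt_last t).ne
    · exact Or.inl
  | relab s t a ih => exact ih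

/-- The vertex none of label one together with the flattened copies in the list. -/
def assemble {N : ℕ} (g : CExpr V k) (o : Fin (k + 1)) (z : Fin (k + 1)) (ls : List (Fin (k + 1))) :
    List (Fin N) → CExpr (Option (Fin N × V × Bool)) (k + 1)
  | [] => vert none o
  | i :: l => union (flat z ls (cp i g)) (assemble g o z ls l)

theorem assemble_mem {N : ℕ} (g : CExpr V k) (o z : Fin (k + 1)) (ls : List (Fin (k + 1)))
    (l : List (Fin N)) (x : Option (Fin N × V × Bool)) :
    x ∈ (assemble g o z ls l).verts ↔
      x = none ∨ ∃ i ∈ l, ∃ v ∈ g.verts, ∃ b, x = some (i, v, b) := by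
  induction l with
  | nil => simp [assemble, verts]
  | cons j l ih =>
    simp only [assemble, verts, Set.mem_union, flat_verts, cp_mem, ih]
    constructor
    · rintro (⟨v, hv, b, rfl⟩ | h | ⟨i, hi, h⟩)
      · exact Or.inr ⟨j, by simp, v, hv, b, rfl⟩
      · exact Or.inl h
      · exact Or.inr ⟨i, by simp [hi], h⟩
    · rintro (h | ⟨i, hi, h⟩)
      · exact Or.inr (Or.inl h)
      · rcases List.mem_cons.1 hi with rfl | hi
        · exact Or.inl h
        · exact Or.inr (Or.inr ⟨i, hi, h⟩)

theorem assemble_ok {N : ℕ} (g : CExpr V k) (hg : g.ok) (o z : Fin (k + 1))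
    (ls : List (Fin (k + 1))) (l : List (Fin N)) (hl : l.Nodup) : (assemble g o z ls l).ok := by
  induction l with
  | nil => trivial
  | cons j l ih =>
    rw [List.nodup_cons] at hl
    refine ⟨flat_ok _ _ _ (cp_ok j g hg), ih hl.2, ?_⟩
    rw [Set.disjoint_left]
    intro x hx hx'
    rw [flat_verts, cp_mem] at hx
    obtain ⟨v, hv, b, rfl⟩ := hx
    rw [assemble_mem] at hx'
    rcases hx' with h | ⟨i, hi, w, hw, c, h⟩
    · exact absurd h (by simp)
    · simp only [Option.some.injEq, Prod.mk.injEq] at h
      rw [h.1] at hl
      exact hl.1 hi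

theorem assemble_edge {N : ℕ} (g : CExpr V k) (o z : Fin (k + 1)) (ls : List (Fin (k + 1)))
    (l : List (Fin N)) (x y : Option (Fin N × V × Bool)) :
    (assemble g o z ls l).edge x y ↔ ∃ i ∈ l, (cp i g).edge x y := by
  induction l with
  | nil => simp [assemble, edge]
  | cons j l ih => simp [assemble, edge, flat_edge, ih]

theorem assemble_lab {N : ℕ} (g : CExpr V k) (hg : g.verts = Set.univ) (o z : Fin (k + 1))
    (ls : List (Fin (k + 1))) (hls : ∀ t : Fin (k + 1), t ∈ ls ↔ t ≠ Fin.last k)
    (l : List (Fin N)) :
    (assemble g o z ls l).lab none = o ∧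
    (∀ i ∈ l, ∀ v, (assemble g o z ls l).lab (some (i, v, true)) = Fin.last k) ∧
    (∀ i ∈ l, ∀ v, (assemble g o z ls l).lab (some (i, v, false)) = z) := by
  have hv : ∀ v, v ∈ g.verts := fun v => by
    rw [hg]
    trivial
  induction l with
  | nil => simp [assemble, lab]
  | cons j l ih =>
    have hmem : ∀ i v b, some (i, v, b) ∈ (flat z ls (cp j g)).verts ↔ i = j := by
      intro i v b
      rw [flat_verts, cp_mem]
      constructor
      · rintro ⟨w, _, c, h⟩
        simp only [Option.some.injEq, Prod.mk.injEq] at h
        exact h.1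
      · rintro rfl
        exact ⟨v, hv v, b, rfl⟩
    refine ⟨?_, ?_, ?_⟩
    · refine (lab_union_not ?_).trans ih.1
      rw [flat_verts, cp_mem]
      simp
    · intro i hi v
      by_cases hij : i = j
      · subst hij
        refine (lab_union_left ((hmem i v true).2 rfl)).trans ?_
        have h1 := cp_lab_true i g v (hv v)
        rw [flat_lab_not, h1]
        rw [h1, hls]
        simp
      · refine (lab_union_not (fun h => hij ((hmem i v true).1 h))).trans (ih.2.1 i ?_ v)
        exact (List.mem_cons.1 hi).resolve_left hij
    · intro i hi v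
      by_cases hij : i = j
      · subst hij
        refine (lab_union_left ((hmem i v false).2 rfl)).trans ?_
        rw [flat_lab_mem]
        rw [cp_lab_false i g v (hv v), hls]
        exact (Fin.castSucc_lt_last _).ne
      · refine (lab_union_not (fun h => hij ((hmem i v false).1 h))).trans (ih.2.2 i ?_ v)
        exact (List.mem_cons.1 hi).resolve_left hij

end CExpr

open CExpr

/-- The upper bound for pendantSum. -/
theorem pendantSum_upper {V : Type*} {G : SimpleGraph V} {c : ℕ} (hc : 2 ≤ c) (N : ℕ)
    (h : CWle G c) : CWle (pendantSum G N) (c + 1) := by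
  obtain ⟨g, og, vg, eg⟩ := h
  have hv : ∀ v, v ∈ g.verts := fun v => by
    rw [vg]
    trivial
  let o : Fin (c + 1) := ⟨1, by omega⟩
  let z : Fin (c + 1) := ⟨0, by omega⟩
  have hol : o ≠ Fin.last c := by
    intro h
    have := congrArg Fin.val h
    simp [o] at this
    omega
  have hzl : z ≠ Fin.last c := by
    intro h
    have := congrArg Fin.val h
    simp [z] at this
    omega
  have hoz : o ≠ z := by
    intro h
    have := congrArg Fin.val h
    simp [o, z] at this
  let ls : List (Fin (c + 1)) := (List.finRange (c + 1)).filter (fun t => t ≠ Fin.last c)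
  have hls : ∀ t : Fin (c + 1), t ∈ ls ↔ t ≠ Fin.last c := by
    intro t
    simp [ls]
  obtain ⟨l1, l2, l3⟩ := assemble_lab (N := N) g vg o z ls hls (List.finRange N)
  have l2' : ∀ i v, (assemble g o z ls (List.finRange N)).lab (some (i, v, true)) = Fin.last c :=
    fun i v => l2 i (List.mem_finRange i) v
  have l3' : ∀ i v, (assemble g o z ls (List.finRange N)).lab (some (i, v, false)) = z :=
    fun i v => l3 i (List.mem_finRange i) v
  have hall : ∀ x, x ∈ (assemble g o z ls (List.finRange N)).verts := by
    intro x
    rw [assemble_mem]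
    rcases x with - | ⟨i, v, b⟩
    · exact Or.inl rfl
    · exact Or.inr ⟨i, List.mem_finRange i, v, hv v, b, rfl⟩
  refine ⟨join o (Fin.last c) (assemble g o z ls (List.finRange N)), ⟨hol, ?_⟩, ?_, ?_⟩
  · exact assemble_ok g og o z ls _ (List.nodup_finRange N)
  · exact Set.eq_univ_of_forall hall
  · intro x y
    have key : (join o (Fin.last c) (assemble g o z ls (List.finRange N))).edge x y ↔
        (∃ i : Fin N, (cp i g).edge x y) ∨
        (((assemble g o z ls (List.finRange N)).lab x = o ∧
          (assemble g o z ls (List.finRange N)).lab y = Fin.last c) ∨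
         ((assemble g o z ls (List.finRange N)).lab x = Fin.last c ∧
          (assemble g o z ls (List.finRange N)).lab y = o)) := by
      simp only [edge, assemble_edge, hall, true_and, List.mem_finRange]
    rw [key]
    have hcopy : ∀ (j : Fin N) x y, (cp j g).edge x y →
        (∃ v b, x = some (j, v, b)) ∧ (∃ v b, y = some (j, v, b)) := by
      intro j x y h
      obtain ⟨h1, h2⟩ := edge_mem h
      rw [cp_mem] at h1 h2
      obtain ⟨v, -, b, h1⟩ := h1
      obtain ⟨w, -, d, h2⟩ := h2
      exact ⟨⟨v, b, h1⟩, ⟨w, d, h2⟩⟩
    have hex : ∀ i j v w a b, (∃ q : Fin N, (cp q g).edge (some (i, v, a)) (some (j, w, b))) ↔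
        (i = j ∧ (cp i g).edge (some (i, v, a)) (some (i, w, b))) := by
      intro i j v w a b
      constructor
      · rintro ⟨q, hq⟩
        obtain ⟨⟨v', a', h1⟩, ⟨w', b', h2⟩⟩ := hcopy q _ _ hq
        simp only [Option.some.injEq, Prod.mk.injEq] at h1 h2
        obtain ⟨rfl, -, -⟩ := h1
        obtain ⟨rfl, -, -⟩ := h2
        exact ⟨rfl, hq⟩
      · rintro ⟨rfl, h⟩
        exact ⟨i, h⟩
    have hnl : ∀ y, ¬ ∃ q : Fin N, (cp q g).edge none y := by
      rintro y ⟨q, hq⟩
      obtain ⟨⟨v', a', h1⟩, -⟩ := hcopy q _ _ hq
      exact absurd h1 (by simp)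
    have hnr : ∀ y, ¬ ∃ q : Fin N, (cp q g).edge y none := by
      rintro y ⟨q, hq⟩
      obtain ⟨-, ⟨v', a', h1⟩⟩ := hcopy q _ _ hq
      exact absurd h1 (by simp)
    rcases x with - | ⟨i, v, - | -⟩ <;> rcases y with - | ⟨j, w, - | -⟩ <;>
      simp only [hex, hnl, hnr, l1, l2', l3', cp_edge_ff, cp_edge_ft, cp_edge_tf, cp_edge_tt,
        eg, pendantSum, hol, hol.symm, hzl, hoz.symm, hv, and_true,
        and_false, or_false, or_self, and_self, or_true, iff_self]

/-- The upper bound for addUniversal. -/
theorem addUniversal_upper {V : Type*} {G : SimpleGraph V} {c : ℕ} (hc : 2 ≤ c)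
    (h : CWle G c) : CWle (addUniversal G) c := by
  obtain ⟨g, og, vg, eg⟩ := h
  have hv : ∀ v, v ∈ g.verts := fun v => by
    rw [vg]
    trivial
  let o : Fin c := ⟨1, by omega⟩
  let z : Fin c := ⟨0, by omega⟩
  have hoz : o ≠ z := by
    intro h
    have := congrArg Fin.val h
    simp [o, z] at this
  have hin : Function.Injective (some : V → Option V) := Option.some_injective V
  let m := flat z (List.finRange c) (CExpr.map some g)
  have hmem : ∀ x, x ∈ m.verts ↔ ∃ v, x = some v := by
    intro x
    simp only [m, flat_verts, map_verts, Set.mem_image]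
    constructor
    · rintro ⟨v, -, rfl⟩
      exact ⟨v, rfl⟩
    · rintro ⟨v, rfl⟩
      exact ⟨v, hv v, rfl⟩
  have hd : Disjoint (vert (k := c) (none : Option V) o).verts m.verts := by
    rw [Set.disjoint_left]
    rintro x rfl hx
    obtain ⟨v, hv⟩ := (hmem _).1 hx
    exact absurd hv (by simp)
  have ml : ∀ v, m.lab (some v) = z := by
    intro v
    exact flat_lab_mem _ _ _ _ (List.mem_finRange _)
  have l1 : (union (vert none o) m).lab none = o := lab_union_left rfl
  have l2 : ∀ v, (union (vert none o) m).lab (some v) = z := by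
    intro v
    rw [lab_union_right hd ((hmem _).2 ⟨v, rfl⟩)]
    exact ml v
  have hall : ∀ x, x ∈ (union (vert none o) m).verts := by
    intro x
    rcases x with - | v
    · exact Or.inl rfl
    · exact Or.inr ((hmem _).2 ⟨v, rfl⟩)
  refine ⟨join o z (union (vert none o) m), ⟨hoz, trivial, ?_, hd⟩, ?_, ?_⟩
  · exact flat_ok _ _ _ (map_ok _ hin _ og)
  · exact Set.eq_univ_of_forall hall
  · intro x y
    have key : (join o z (union (vert none o) m)).edge x y ↔ m.edge x y ∨
        (((union (vert none o) m).lab x = o ∧ (union (vert none o) m).lab y = z) ∨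
         ((union (vert none o) m).lab x = z ∧ (union (vert none o) m).lab y = o)) := by
      simp only [edge, hall, true_and, false_or]
    have me : m.edge = (CExpr.map some g).edge := flat_edge _ _ _
    have hnl : ∀ y, ¬ (CExpr.map some g).edge none y := by
      intro y h
      have := (edge_mem h).1
      rw [map_verts] at this
      simp at this
    have hnr : ∀ y, ¬ (CExpr.map some g).edge y none := by
      intro y h
      have := (edge_mem h).2
      rw [map_verts] at this
      simp at this
    rw [key, me]
    rcases x with - | v <;> rcases y with - | w <;>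
      simp only [hnl, hnr, l1, l2, map_edge some hin, eg, addUniversal, hoz, hoz.symm, and_true,
        and_false, or_false, or_self, and_self, or_true]

end Pool.Agent.CWR
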